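import Pool.Agent.NH40.Conn

set_option autoImplicit false

open MeasureTheory Set Filter
open scoped Topology

/-!
Site percolation on `Z^d`, `d ≥ 2`, below the critical point: uniform power law upper bound for the
probability that distant boxes are connected.

The main estimate is in the module `Pool.Agent.NH40.Conn`.
-/

namespace Pool.Agent.Results.MP_e13933_pr.ConnectionsBelow

noncomputable section

/-- Vertices of `Z^d`. -/
abbrev V (d : ℕ) : Type := Fin d → ℤ

/-- The box of radius `N` around `z`; it has `(2 * N + 1) ^ d` vertices. -/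
def box {d : ℕ} (z : V d) (N : ℕ) : Set (V d) := {x | ∀ i, |x i - z i| ≤ N}

/-- The open subgraph inside the region `S`: two vertices at Euclidean distance one are joined if
both are open (`ω x = true`) and in `S`. -/
def openGraph {d : ℕ} (ω : V d → Bool) (S : Set (V d)) : SimpleGraph (V d) where
  Adj x y := ∑ i, |x i - y i| = 1 ∧ (x ∈ S ∧ ω x = true) ∧ (y ∈ S ∧ ω y = true)
  symm := ⟨fun x y ⟨h1, h2, h3⟩ => ⟨by simpa only [abs_sub_comm] using h1, h3, h2⟩⟩
  loopless := ⟨fun x h => by simpa using h.1⟩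

/-- The open cluster of `x` inside the region `S` (empty if `x` is closed). -/
def cluster {d : ℕ} (ω : V d → Bool) (S : Set (V d)) (x : V d) : Set (V d) :=
  {y | (ω x = true ∧ x ∈ S) ∧ (openGraph ω S).Reachable x y}

/-- The sets `A` and `B` are connected inside the region `S`: some open cluster inside `S` meets
both of them. -/
def Joined {d : ℕ} (ω : V d → Bool) (S A B : Set (V d)) : Prop :=
  ∃ x ∈ A, (cluster ω S x ∩ B).Nonempty

/-- Site percolation with parameter `p`: all vertices are open with probability `p`,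
independently. -/
def P (d : ℕ) (p : unitInterval) : Measure (V d → Bool) :=
  Measure.infinitePi (fun _ : V d =>
    ENNReal.ofReal (p : ℝ) • Measure.dirac true + ENNReal.ofReal (1 - (p : ℝ)) • Measure.dirac false)

/-- The percolation probability `θ_d(p)`. -/
def theta (d : ℕ) (p : unitInterval) : ℝ := (P d p).real {ω | (cluster ω univ 0).Infinite}

/-- The critical point `p_c(d)`, the supremum of the parameters with `θ_d(p) = 0`. -/
def pc (d : ℕ) : unitInterval :=
  ⟨sSup {t : ℝ | ∃ q : unitInterval, (q : ℝ) = t ∧ theta d q = 0}, by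
    constructor
    · apply Real.sSup_nonneg
      rintro x ⟨q, rfl, _⟩
      exact q.2.1
    · apply Real.sSup_le
      · rintro x ⟨q, rfl, _⟩
        exact q.2.2
      · exact zero_le_one⟩

/-! ### Comparison with the model of the modules -/

lemma nd_mem {d : ℕ} {ω : V d → Bool} {x y : V d} :
    (∀ c ∈ (Pool.Agent.Y990.CB.siteM d).nd x y, ω c = true) ↔ ω x = true ∧ ω y = true := by
  show (∀ c : V d, c ∈ ({x, y} : Finset (V d)) → ω c = true) ↔ _
  simp only [Finset.mem_insert, Finset.mem_singleton, forall_eq_or_imp, forall_eq]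

open Pool.Agent.Y990.CB in
lemma adj_iff {d : ℕ} (ω : V d → Bool) (S : Set (V d)) (x y : V d) :
    (openGraph ω S).Adj x y ↔ (G (siteM d) ω S).Adj x y := by
  show (∑ i, |x i - y i| = 1 ∧ (x ∈ S ∧ ω x = true) ∧ (y ∈ S ∧ ω y = true)) ↔
    (∑ i, |x i - y i| = 1 ∧ x ∈ S ∧ y ∈ S ∧ ∀ c ∈ (siteM d).nd x y, ω c = true)
  rw [nd_mem]
  tauto

open Pool.Agent.Y990.CB in
lemma graph_eq {d : ℕ} (ω : V d → Bool) (S : Set (V d)) :
    openGraph ω S = G (siteM d) ω S := by
  ext x y
  exact adj_iff ω S x y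

open Pool.Agent.Y990.CB in
lemma cluster_sub {d : ℕ} (ω : V d → Bool) (S : Set (V d)) (x : V d) :
    cluster ω S x ⊆ cl (siteM d) ω S x := by
  rintro y ⟨-, h⟩
  rw [graph_eq] at h
  exact h

open Pool.Agent.Y990.CB in
lemma infinite_iff {d : ℕ} (ω : V d → Bool) (x : V d) :
    (cluster ω univ x).Infinite ↔ ω ∈ Perc (siteM d) x := by
  constructor
  · intro h
    exact h.mono (cluster_sub ω univ x)
  · intro h
    have hx : ω x = true := by
      obtain ⟨y, hy, hyx⟩ := Set.Infinite.exists_notMem_finset h {x}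
      have hyx' : y ≠ x := by simpa using hyx
      have hr : (G (siteM d) ω univ).Reachable x y := hy
      obtain ⟨q⟩ := hr
      cases q with
      | nil => exact absurd rfl hyx'
      | cons hadj _ => exact (nd_mem.1 hadj.2.2.2).1
    refine Set.Infinite.mono ?_ h
    intro y hy
    refine ⟨⟨hx, mem_univ x⟩, ?_⟩
    rw [graph_eq]
    exact hy

open Pool.Agent.Y990.CB in
lemma P_eq (d : ℕ) (p : unitInterval) : P d p = mu (siteM d) p := rfl

open Pool.Agent.Y990.CB in
lemma theta_eq (d : ℕ) (p : unitInterval) : theta d p = th (siteM d) p := by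
  unfold theta th
  rw [P_eq]
  congr 1
  ext ω
  exact infinite_iff ω 0

open Pool.Agent.Y990.CB in
lemma pc_eq (d : ℕ) : pc d = Pool.Agent.Y990.CB.pc (siteM d) := by
  apply Subtype.ext
  show sSup {t : ℝ | ∃ q : unitInterval, (q : ℝ) = t ∧ theta d q = 0} =
    sSup {x : ℝ | ∃ q : unitInterval, (q : ℝ) = x ∧ th (siteM d) q = 0}
  simp only [theta_eq]

open Pool.Agent.Y990.CB in
lemma box_eq {d : ℕ} (z : V d) (N : ℕ) : box z N = Bo z N := rfl

open Pool.Agent.Y990.CB in
lemma le_nm {d : ℕ} (v : V d) (i : Fin d) : (v i).natAbs ≤ nm v :=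
  Finset.le_sup (f := fun i => (v i).natAbs) (Finset.mem_univ i)

open Pool.Agent.Y990.CB in
lemma nm_le {d N : ℕ} {v : V d} (h : v ∈ box 0 N) : nm v ≤ N := by
  refine Finset.sup_le fun i _ => ?_
  have h1 := h i
  simp only [Pi.zero_apply, sub_zero, abs_le] at h1
  show (v i).natAbs ≤ N
  omega

open Pool.Agent.Y990.CB in
lemma le_mul_nm {d N K : ℕ} {v w : V d} (h : ∃ a, (N : ℤ) ≤ K * |v a - w a|) :
    N ≤ K * nm (v - w) := by
  obtain ⟨a, ha⟩ := h
  have h1 : N ≤ K * (v a - w a).natAbs := by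
    have : (N : ℤ) ≤ ((K * (v a - w a).natAbs : ℕ) : ℤ) := by
      push_cast
      exact ha
    exact_mod_cast this
  exact h1.trans (Nat.mul_le_mul_left K (le_nm (v - w) a))

open Pool.Agent.Y990.CB in
lemma joined_sub {d : ℕ} {ω : V d → Bool} {S A B : Set (V d)} (h : Joined ω S A B) :
    ω ∈ Lk (siteM d) S A B := by
  obtain ⟨x, hx, y, hy, hyB⟩ := h
  exact ⟨x, hx, y, hyB, cluster_sub ω S x hy⟩

instance (d : ℕ) (p : unitInterval) : IsProbabilityMeasure (P d p) :=
  inferInstanceAs (IsProbabilityMeasure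
    (Pool.Agent.Y990.CB.mu (Pool.Agent.Y990.CB.siteM d) p))

/-- Sup distance of two vertices. -/
def dist {d : ℕ} (x y : V d) : ℕ := Finset.univ.sup (fun i => (x i - y i).natAbs)

lemma dist_eq {d : ℕ} (x y : V d) : dist x y = Pool.Agent.Y990.CB.nm (y - x) := by
  unfold dist Pool.Agent.Y990.CB.nm
  congr 1
  funext i
  rw [Pi.sub_apply]
  omega

/-- **Connections below the critical point.**  For every `d ≥ 2` there are `C ≥ 1` and `c > 0` such
that:

* for every `R ≥ 1` there is `K > 0` such that for all `p ≤ p_c`, all distinct vertices `x`, `y`,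
  with sup distance `n`, and all `k` with `C (k + 1)^(2 d^2 + 3 d) R ≤ n^(1/4)`, the
  `P_p`-probability that the boxes of radius `k` around `x` and `y` are connected inside the box of
  radius `R n` around `x` is at most `K n ^ (- c (p_c - p) / R^2)`;
* for all `R, m ≥ 1` there is `K > 0` such that for all `p ≤ p_c`, all `N ≥ 1`, all vertices
  `x_1, …, x_m` of the box of radius `N` with mutual sup distances at least `N / m`, and all `k` with
  `C (k + 1)^(2 d^2 + 3 d) (R + 1) m ≤ (N / m)^(1/4)`, the `P_p`-probability that two of the boxes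
  of radius `k` around `x_1, …, x_m` are connected inside the box of radius `R N` is at most
  `K N ^ (- c (p_c - p) / ((R + 1) m)^2)`. -/
theorem result (d : ℕ) (hd : 2 ≤ d) : ∃ C c : ℝ, 1 ≤ C ∧ 0 < c ∧
    (∀ R : ℕ, 1 ≤ R → ∃ K : ℝ, 0 < K ∧ ∀ p : unitInterval, p ≤ pc d → ∀ (x y : V d) (k : ℕ),
      x ≠ y → C * ((k : ℝ) + 1) ^ (2 * d ^ 2 + 3 * d) * R ≤ (dist x y : ℝ) ^ (1 / 4 : ℝ) →
      (P d p).real {ω | Joined ω (box x (R * dist x y)) (box x k) (box y k)} ≤
        K * (dist x y : ℝ) ^ (-(c / R ^ 2 * ((pc d : ℝ) - p)))) ∧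
    (∀ R m : ℕ, 1 ≤ R → 1 ≤ m → ∃ K : ℝ, 0 < K ∧ ∀ p : unitInterval, p ≤ pc d →
      ∀ (N k : ℕ) (x : Fin m → V d), 1 ≤ N → (∀ i, x i ∈ box 0 N) →
      (∀ i j, i ≠ j → N ≤ m * dist (x i) (x j)) →
      C * ((k : ℝ) + 1) ^ (2 * d ^ 2 + 3 * d) * (((R + 1) * m : ℕ) : ℝ) ≤
        ((N : ℝ) / m) ^ (1 / 4 : ℝ) →
      (P d p).real {ω | ∃ i j, i ≠ j ∧ Joined ω (box 0 (R * N)) (box (x i) k) (box (x j) k)} ≤
        K * (N : ℝ) ^ (-(c / (((R + 1) * m : ℕ) : ℝ) ^ 2 * ((pc d : ℝ) - p)))) := by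
  obtain ⟨C, c, hC, hc, h⟩ := Pool.Agent.NH40.conn_below hd
  have hpc := pc_eq d
  -- the bound for two boxes with a general centre
  have two : ∀ R : ℕ, 1 ≤ R → ∃ K : ℝ, 0 < K ∧ ∀ p : unitInterval, p ≤ pc d →
      ∀ (x y : V d) (k : ℕ), x ≠ y →
      C * ((k : ℝ) + 1) ^ (2 * d ^ 2 + 3 * d) * R ≤ (dist x y : ℝ) ^ (1 / 4 : ℝ) →
      (P d p).real {ω | Joined ω (box x (R * dist x y)) (box x k) (box y k)} ≤
        K * (dist x y : ℝ) ^ (-(c / R ^ 2 * ((pc d : ℝ) - p))) := by
    intro R hR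
    obtain ⟨K, hK, g⟩ := h R hR
    refine ⟨K, hK, fun p hp x y k hxy hk => ?_⟩
    rw [hpc] at hp
    have hn : dist x y = Pool.Agent.Y990.CB.nm (y - x) := dist_eq x y
    have h1 : 1 ≤ Pool.Agent.Y990.CB.nm (y - x) := by
      by_contra hcon
      have h0 : Pool.Agent.Y990.CB.nm (y - x) = 0 := by omega
      apply hxy
      funext i
      have h2 := Pool.Agent.Y990.CB.abs_le_nm (y - x) i
      rw [h0] at h2
      have h3 : |(y - x) i| ≤ 0 := by exact_mod_cast h2
      have h4 : (y - x) i = 0 := abs_eq_zero.1 (le_antisymm h3 (abs_nonneg _))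
      rw [Pi.sub_apply] at h4
      omega
    rw [hn] at hk ⊢
    have g1 := g p hp (y - x) k h1 hk
    have g2 := Pool.Agent.Y990.CB.Lk_shift (Pool.Agent.Y990.CB.siteM d) p 0 x (y - x)
      (R * Pool.Agent.Y990.CB.nm (y - x)) k k
    rw [← hpc] at g1
    refine le_trans ?_ g1
    rw [P_eq, ← g2, zero_add, sub_add_cancel]
    refine measureReal_mono ?_ (measure_ne_top _ _)
    intro ω hω
    exact joined_sub hω
  refine ⟨C, c, hC, hc, two, fun R m hR hm => ?_⟩
  have hR' : 1 ≤ (R + 1) * m := Nat.one_le_iff_ne_zero.2 (by positivity)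
  obtain ⟨K, hK, g⟩ := two ((R + 1) * m) hR'
  have hm0 : (0 : ℝ) < m := by exact_mod_cast hm
  have hm1 : (1 : ℝ) ≤ m := by exact_mod_cast hm
  refine ⟨(m : ℝ) ^ 2 * (K * (m : ℝ) ^ c), by positivity, fun p hp N k x hN hx hxx hk => ?_⟩
  have hN0 : (0 : ℝ) < N := by exact_mod_cast hN
  set R' : ℕ := (R + 1) * m with hR'def
  have hR'1 : (1 : ℝ) ≤ (R' : ℝ) := by exact_mod_cast hR'
  have hpp : 0 ≤ (pc d : ℝ) - p := sub_nonneg.2 (by exact_mod_cast hp)
  have hpp1 : (pc d : ℝ) - p ≤ 1 := by linarith [(pc d).2.2, p.2.1]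
  set e : ℝ := c / (R' : ℝ) ^ 2 * ((pc d : ℝ) - p) with he
  have he0 : 0 ≤ e := by positivity
  have hec : e ≤ c := by
    have h1 : c / (R' : ℝ) ^ 2 ≤ c := div_le_self hc.le (one_le_pow₀ hR'1)
    calc e ≤ c * 1 := mul_le_mul h1 hpp1 hpp hc.le
      _ = c := mul_one c
  have key : ∀ i j : Fin m, i ≠ j →
      (P d p).real {ω | Joined ω (box 0 (R * N)) (box (x i) k) (box (x j) k)} ≤
        K * (m : ℝ) ^ c * (N : ℝ) ^ (-e) := by
    intro i j hij
    have h1 := hxx i j hij
    have h2 : (N : ℝ) ≤ m * (dist (x i) (x j) : ℝ) := by exact_mod_cast h1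
    have h3 : (N : ℝ) / m ≤ (dist (x i) (x j) : ℝ) := by
      rw [div_le_iff₀ hm0]
      linarith
    have hNm : (0 : ℝ) < (N : ℝ) / m := div_pos hN0 hm0
    have hne : x i ≠ x j := by
      intro h4
      rw [h4] at h3
      have h5 : dist (x j) (x j) = 0 := by
        rw [dist_eq, sub_self]
        unfold Pool.Agent.Y990.CB.nm
        simp
      rw [h5] at h3
      simp only [Nat.cast_zero] at h3
      linarith
    have g1 := g p hp (x i) (x j) k hne (by
      refine hk.trans ?_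
      exact Real.rpow_le_rpow hNm.le h3 (by norm_num))
    have h6 : (P d p).real {ω | Joined ω (box 0 (R * N)) (box (x i) k) (box (x j) k)} ≤
        (P d p).real {ω | Joined ω (box (x i) (R' * dist (x i) (x j))) (box (x i) k)
          (box (x j) k)} := by
      refine measureReal_mono ?_ (measure_ne_top _ _)
      rintro ω ⟨u, hu, w, ⟨⟨hu1, hu2⟩, hw⟩, hwB⟩
      have hsub : box (0 : V d) (R * N) ⊆ box (x i) (R' * dist (x i) (x j)) := by
        intro y hy a
        have a1 := hy a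
        have a2 := hx i a
        have a3 : (R + 1) * N ≤ R' * dist (x i) (x j) := by
          rw [hR'def, mul_assoc]
          exact Nat.mul_le_mul_left _ h1
        simp only [Pi.zero_apply, sub_zero] at a1 a2
        push_cast at a1
        have a4 : ((R : ℤ) + 1) * N ≤ ((R' * dist (x i) (x j) : ℕ) : ℤ) := by exact_mod_cast a3
        have a5 : |y a - x i a| ≤ |y a| + |x i a| := abs_sub _ _
        linarith
      refine ⟨u, hu, w, ⟨⟨hu1, hsub hu2⟩, ?_⟩, hwB⟩
      refine SimpleGraph.Reachable.mono ?_ hw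
      intro a b hab
      exact ⟨hab.1, ⟨hsub hab.2.1.1, hab.2.1.2⟩, ⟨hsub hab.2.2.1, hab.2.2.2⟩⟩
    refine h6.trans (g1.trans ?_)
    have h7 : (dist (x i) (x j) : ℝ) ^ (-e) ≤ ((N : ℝ) / m) ^ (-e) :=
      Real.rpow_le_rpow_of_nonpos hNm h3 (by linarith)
    have h8 : ((N : ℝ) / m) ^ (-e) = (m : ℝ) ^ e * (N : ℝ) ^ (-e) := by
      rw [Real.div_rpow hN0.le hm0.le, Real.rpow_neg hm0.le, div_inv_eq_mul, mul_comm]
    have h9 : (m : ℝ) ^ e ≤ (m : ℝ) ^ c := Real.rpow_le_rpow_of_exponent_le hm1 hec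
    have h10 : 0 ≤ (N : ℝ) ^ (-e) := Real.rpow_nonneg hN0.le _
    calc K * (dist (x i) (x j) : ℝ) ^ (-e) ≤ K * ((m : ℝ) ^ e * (N : ℝ) ^ (-e)) := by
          rw [← h8]
          exact mul_le_mul_of_nonneg_left h7 hK.le
      _ ≤ K * ((m : ℝ) ^ c * (N : ℝ) ^ (-e)) :=
          mul_le_mul_of_nonneg_left (mul_le_mul_of_nonneg_right h9 h10) hK.le
      _ = K * (m : ℝ) ^ c * (N : ℝ) ^ (-e) := by ring
  have h11 : {ω | ∃ i j, i ≠ j ∧ Joined ω (box 0 (R * N)) (box (x i) k) (box (x j) k)} ⊆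
      ⋃ q ∈ (Finset.univ : Finset (Fin m × Fin m)), (if q.1 ≠ q.2 then
        {ω | Joined ω (box 0 (R * N)) (box (x q.1) k) (box (x q.2) k)} else ∅) := by
    rintro ω ⟨i, j, hij, hω⟩
    simp only [mem_iUnion, Finset.mem_univ, exists_prop, true_and]
    refine ⟨(i, j), ?_⟩
    rw [if_pos hij]
    exact hω
  have h12 : (P d p).real {ω | ∃ i j, i ≠ j ∧
      Joined ω (box 0 (R * N)) (box (x i) k) (box (x j) k)} ≤
      ∑ q ∈ (Finset.univ : Finset (Fin m × Fin m)), K * (m : ℝ) ^ c * (N : ℝ) ^ (-e) := by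
    refine (measureReal_mono h11 (measure_ne_top _ _)).trans ?_
    refine (measureReal_biUnion_finset_le _ _).trans ?_
    refine Finset.sum_le_sum fun q _ => ?_
    by_cases hq : q.1 ≠ q.2
    · rw [if_pos hq]
      exact key q.1 q.2 hq
    · rw [if_neg hq, measureReal_empty]
      positivity
  refine h12.trans (le_of_eq ?_)
  rw [Finset.sum_const, Finset.card_univ, Fintype.card_prod, Fintype.card_fin, nsmul_eq_mul]
  push_cast
  ring

end

end Pool.Agent.Results.MP_e13933_pr.ConnectionsBelow
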